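import Mathlib
import Pool.Agent.Y354.DC3.Stm

/-!
Polynomial inequalities on the unit interval.
-/

set_option autoImplicit false

namespace Pool.Agent.Y445.DC3

open Pool.Agent.Y354.DC3

theorem la_pos (z : ℝ) : 0 < la z := by
  unfold la
  nlinarith [sq_nonneg (z - 76 / 94)]

theorem rr_nonneg (z s : ℝ) (hz : 0 ≤ z) (hs : 0 ≤ s) (h : s = 1 - z) : 0 ≤ rr z := by
  have e : rr z = 11 / 4 * s ^ 5 + 6594 / 625 * z * s ^ 4 + 83303 / 5000 * z ^ 2 * s ^ 3 +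
    33609 / 2500 * z ^ 3 * s ^ 2 + 3519 / 625 * z ^ 4 * s + 1 * z ^ 5 := by
    rw [h]
    unfold rr
    ring
  rw [e]
  positivity

theorem rr_le (z s : ℝ) (hz : 0 ≤ z) (hs : 0 ≤ s) (h : s = 1 - z) : rr z ≤ 11 / 4 := by
  have e : 11 / 4 - rr z = 7999 / 2500 * z * s ^ 4 + 54197 / 5000 * z ^ 2 * s ^ 3 +
    35141 / 2500 * z ^ 3 * s ^ 2 + 20299 / 2500 * z ^ 4 * s + 7 / 4 * z ^ 5 := by
    rw [h]
    unfold rr
    ring
  have e2 : 0 ≤ 11 / 4 - rr z := by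
    rw [e]
    positivity
  linarith

theorem Ph_nonneg (z s : ℝ) (hz : 0 ≤ z) (hs : 0 ≤ s) (h : s = 1 - z) : 0 ≤ Ph z := by
  have e : Ph z = 123 / 100 * z * s ^ 3 + 33 / 10 * z ^ 2 * s ^ 2 + 78 / 25 * z ^ 3 * s + 1 * z ^ 4 := by
    rw [h]
    unfold Ph
    ring
  rw [e]
  positivity

theorem Ph_le (z s : ℝ) (hz : 0 ≤ z) (hs : 0 ≤ s) (h : s = 1 - z) : Ph z ≤ 1 := by
  have e : 1 - Ph z = 1 * s ^ 4 + 277 / 100 * z * s ^ 3 + 27 / 10 * z ^ 2 * s ^ 2 + 22 / 25 * z ^ 3 * s := by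
    rw [h]
    unfold Ph
    ring
  have e2 : 0 ≤ 1 - Ph z := by
    rw [e]
    positivity
  linarith

theorem main_low (z s t : ℝ) (hs : 0 ≤ s) (ht : 0 ≤ t) (h : z = s / 2) (h' : t = 1 - s) :
    la z ^ 2 * (49 / 20) + 3 / 10 * z * rr z ^ 2 + 3 / 1000 * la z ≤ 2 * la z * dPh z := by
  have e : 2 * la z * dPh z -
      (la z ^ 2 * (49 / 20) + 3 / 10 * z * rr z ^ 2 + 3 / 1000 * la z) =
    7 / 1000 * t ^ 11 + 3861 / 200000 * s * t ^ 10 + 2323 / 50000 * s ^ 2 * t ^ 9 +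
    79726811 / 250000000 * s ^ 3 * t ^ 8 + 293237923 / 250000000 * s ^ 4 * t ^ 7 +
    18063048669 / 8000000000 * s ^ 5 * t ^ 6 + 20591462033 / 8000000000 * s ^ 6 * t ^ 5 +
    58773608107 / 32000000000 * s ^ 7 * t ^ 4 + 2656444389 / 3200000000 * s ^ 8 * t ^ 3 +
    1191985959 / 5120000000 * s ^ 9 * t ^ 2 + 38953249 / 1024000000 * s ^ 10 * t +
    2412493 / 819200000 * s ^ 11 := by
    rw [h, h']
    unfold la rr dPh
    ring
  have e2 : 0 ≤ 2 * la z * dPh z -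
      (la z ^ 2 * (49 / 20) + 3 / 10 * z * rr z ^ 2 + 3 / 1000 * la z) := by
    rw [e]
    positivity
  linarith

theorem main_high (z s t : ℝ) (hs : 0 ≤ s) (ht : 0 ≤ t) (h : z = (1 + s) / 2) (h' : t = 1 - s) :
    la z ^ 2 * (49 / 20) + 3 / 10 * z * rr z ^ 2 + 3 / 1000 * la z ≤ 2 * la z * dPh z := by
  have e : 2 * la z * dPh z -
      (la z ^ 2 * (49 / 20) + 3 / 10 * z * rr z ^ 2 + 3 / 1000 * la z) =
    2412493 / 819200000 * t ^ 11 + 54780617 / 2048000000 * s * t ^ 10 +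
    306919467 / 2560000000 * s ^ 2 * t ^ 9 + 2563224237 / 6400000000 * s ^ 3 * t ^ 8 +
    35509080217 / 32000000000 * s ^ 4 * t ^ 7 +
    37355769993 / 16000000000 * s ^ 5 * t ^ 6 + 682549911 / 200000000 * s ^ 6 * t ^ 5 +
    3305148583 / 1000000000 * s ^ 7 * t ^ 4 + 126954543 / 62500000 * s ^ 8 * t ^ 3 +
    91554961 / 125000000 * s ^ 9 * t ^ 2 + 6441 / 50000 * s ^ 10 * t +
    18 / 3125 * s ^ 11 := by
    rw [h, h']
    unfold la rr dPh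
    ring
  have e2 : 0 ≤ 2 * la z * dPh z -
      (la z ^ 2 * (49 / 20) + 3 / 10 * z * rr z ^ 2 + 3 / 1000 * la z) := by
    rw [e]
    positivity
  linarith

theorem mono (z w s t : ℝ) (hz : 0 ≤ z) (hw : 0 ≤ w) (hs : 0 ≤ s) (ht : 0 ≤ t)
    (h : s = 1 - z) (h' : t = 1 - w) (hzw : z ≤ w) : z * rr z ≤ w * rr w := by
  have e : w * rr w - z * rr z = (w - z) * (
    11 / 4 * s ^ 5 * t ^ 5 + 6594 / 625 * s ^ 5 * w * t ^ 4 +
    83303 / 5000 * s ^ 5 * w ^ 2 * t ^ 3 + 33609 / 2500 * s ^ 5 * w ^ 3 * t ^ 2 +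
    3519 / 625 * s ^ 5 * w ^ 4 * t + 1 * s ^ 5 * w ^ 5 + 6594 / 625 * z * s ^ 4 * t ^ 5 +
    38713 / 1000 * z * s ^ 4 * w * t ^ 4 + 73009 / 1250 * z * s ^ 4 * w ^ 2 * t ^ 3 +
    22521 / 500 * z * s ^ 4 * w ^ 3 * t ^ 2 + 22853 / 1250 * z * s ^ 4 * w ^ 4 * t +
    13 / 4 * z * s ^ 4 * w ^ 5 + 83303 / 5000 * z ^ 2 * s ^ 3 * t ^ 5 +
    73009 / 1250 * z ^ 2 * s ^ 3 * w * t ^ 4 +
    83943 / 1000 * z ^ 2 * s ^ 3 * w ^ 2 * t ^ 3 +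
    154201 / 2500 * z ^ 2 * s ^ 3 * w ^ 3 * t ^ 2 +
    61009 / 2500 * z ^ 2 * s ^ 3 * w ^ 4 * t + 2781 / 625 * z ^ 2 * s ^ 3 * w ^ 5 +
    33609 / 2500 * z ^ 3 * s ^ 2 * t ^ 5 + 22521 / 500 * z ^ 3 * s ^ 2 * w * t ^ 4 +
    154201 / 2500 * z ^ 3 * s ^ 2 * w ^ 2 * t ^ 3 +
    216833 / 5000 * z ^ 3 * s ^ 2 * w ^ 3 * t ^ 2 +
    8547 / 500 * z ^ 3 * s ^ 2 * w ^ 4 * t + 16697 / 5000 * z ^ 3 * s ^ 2 * w ^ 5 +
    3519 / 625 * z ^ 4 * s * t ^ 5 + 22853 / 1250 * z ^ 4 * s * w * t ^ 4 +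
    61009 / 2500 * z ^ 4 * s * w ^ 2 * t ^ 3 + 8547 / 500 * z ^ 4 * s * w ^ 3 * t ^ 2 +
    35669 / 5000 * z ^ 4 * s * w ^ 4 * t + 3891 / 2500 * z ^ 4 * s * w ^ 5 +
    1 * z ^ 5 * t ^ 5 + 13 / 4 * z ^ 5 * w * t ^ 4 + 2781 / 625 * z ^ 5 * w ^ 2 * t ^ 3 +
    16697 / 5000 * z ^ 5 * w ^ 3 * t ^ 2 + 3891 / 2500 * z ^ 5 * w ^ 4 * t +
    231 / 625 * z ^ 5 * w ^ 5) := by
    rw [h, h']
    unfold rr
    ring
  have e2 : 0 ≤ w * rr w - z * rr z := by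
    rw [e]
    refine mul_nonneg (sub_nonneg.2 hzw) ?_
    positivity
  linarith

theorem la_Ph (z : ℝ) : la z * (1 - Ph z) = 1 - z * rr z := by
  unfold la Ph rr
  ring

theorem s_po : S_PO := by
  refine ⟨la_Ph, by unfold Ph; norm_num, ?_, ?_, ?_⟩
  · intro z h0 h1
    have h2 : 0 ≤ 1 - z := sub_nonneg.2 h1
    refine ⟨la_pos z, rr_nonneg z _ h0 h2 rfl, rr_le z _ h0 h2 rfl, Ph_nonneg z _ h0 h2 rfl,
      Ph_le z _ h0 h2 rfl, ?_⟩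
    rcases le_total z (1 / 2) with h | h
    · exact main_low z (2 * z) (1 - 2 * z) (by linarith) (by linarith) (by ring) rfl
    · exact main_high z (2 * z - 1) (2 - 2 * z) (by linarith) (by linarith) (by ring) (by ring)
  · intro z w h0 hzw h1
    have hz1 : 0 ≤ 1 - z := by linarith
    have hw1 : 0 ≤ 1 - w := by linarith
    have hw0 : 0 ≤ w := h0.trans hzw
    refine ⟨?_, ?_⟩
    · rw [la_Ph, la_Ph]
      have := mono z w _ _ h0 hw0 hz1 hw1 rfl rfl hzw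
      linarith
    · have e : Ph w - Ph z - (dPh z * (w - z) - 2 / 5 * (w - z) ^ 2) =
          (w - z) ^ 2 * (1 / 100 + 21 / 100 * (w + 2 * z) -
            5 / 100 * (w ^ 2 + 2 * z * w + 3 * z ^ 2)) := by
        unfold Ph dPh
        ring
      have e1 : 0 ≤ 1 / 100 + 21 / 100 * (w + 2 * z) -
            5 / 100 * (w ^ 2 + 2 * z * w + 3 * z ^ 2) := by
        nlinarith [mul_nonneg hw0 hw1, mul_nonneg h0 hw1, mul_nonneg h0 hz1]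
      have e2 : 0 ≤ Ph w - Ph z - (dPh z * (w - z) - 2 / 5 * (w - z) ^ 2) := by
        rw [e]
        exact mul_nonneg (sq_nonneg _) e1
      linarith
  · intro z h0 h1
    have e : Ph z - (49 / 40 * z + z / 1000) = z * (4 / 1000 - 39 / 100 * z +
        z ^ 2 * (21 / 100 - 5 / 100 * z)) := by
      unfold Ph
      ring
    have e1 : 0 ≤ z ^ 2 * (21 / 100 - 5 / 100 * z) :=
      mul_nonneg (sq_nonneg _) (by linarith)
    have e2 : 0 ≤ Ph z - (49 / 40 * z + z / 1000) := by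
      rw [e]
      exact mul_nonneg h0 (by linarith)
    linarith

end Pool.Agent.Y445.DC3
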